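import Pool.Agent.Helper61.Tri.Goals2

/-!
# MP_5b3c48_co, packet BRIDGE: expanded paths and cycles are copies of blow-ups
-/

set_option autoImplicit false

open Finset SimpleGraph

namespace Pool.Agent.Helper11.Tri

open Pool.Agent.Helper61.Tri

/-- A copy of the blow-up from a map of the vertices and a map of the edges. -/
theorem copyB {W V : Type} (H : SimpleGraph W) (G : SimpleGraph V) (c : W → V) (ap : Sym2 W → V)
    (hc : ∀ u v, c u = c v → u = v) (h1 : ∀ u v, H.Adj u v → G.Adj (c u) (c v))
    (h2 : ∀ u v, H.Adj u v → G.Adj (c u) (ap s(u, v)))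
    (h3 : ∀ u v u' v', H.Adj u v → H.Adj u' v' → ap s(u, v) = ap s(u', v') →
      s(u, v) = s(u', v'))
    (h4 : ∀ x u v, H.Adj u v → c x ≠ ap s(u, v)) : ¬ (blowup H).Free G := by
  have h2' : ∀ (u : W) (e : H.edgeSet), u ∈ e.1 → G.Adj (c u) (ap e.1) := by
    rintro u ⟨e, he⟩ hu
    induction e using Sym2.ind with
    | _ x y =>
      rw [mem_edgeSet] at he
      rcases Sym2.mem_iff.1 hu with rfl | rfl
      · exact h2 _ _ he
      · have := h2 _ _ he.symm
        rwa [Sym2.eq_swap] at this
  have h3' : ∀ e f : H.edgeSet, ap e.1 = ap f.1 → e = f := by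
    rintro ⟨e, he⟩ ⟨f, hf⟩ h
    induction e using Sym2.ind with
    | _ x y =>
      induction f using Sym2.ind with
      | _ z t =>
        rw [mem_edgeSet] at he hf
        exact Subtype.ext (h3 _ _ _ _ he hf h)
  have h4' : ∀ (x : W) (e : H.edgeSet), c x ≠ ap e.1 := by
    rintro x ⟨e, he⟩
    induction e using Sym2.ind with
    | _ u v =>
      rw [mem_edgeSet] at he
      exact h4 x u v he
  intro hF
  apply hF
  refine ⟨⟨⟨Sum.elim c fun e => ap e.1, ?_⟩, ?_⟩⟩
  · rintro (u | e) (v | f) h
    · exact h1 _ _ h
    · exact h2' u f h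
    · exact (h2' v e h).symm
    · exact h.elim
  · rintro (u | e) (v | f) h
    · exact congrArg Sum.inl (hc _ _ h)
    · exact absurd h (h4' u f)
    · exact absurd h.symm (h4' v e)
    · exact congrArg Sum.inr (h3' _ _ h)

theorem cyc_adj {n : ℕ} {u v : Fin n} (h : (cycleGraph n).Adj u v) :
    u.val + 1 = v.val ∨ v.val + 1 = u.val ∨ (u.val = 0 ∧ v.val + 1 = n) ∨
      (v.val = 0 ∧ u.val + 1 = n) := by
  rw [cycleGraph_adj'] at h
  have key : ∀ a b : Fin n, (a - b).val = 1 → b.val + 1 = a.val ∨ (a.val = 0 ∧ b.val + 1 = n) := by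
    intro a b hab
    rcases le_or_gt b a with hle | hlt
    · have := Fin.coe_sub_iff_le.2 hle
      left
      rw [Fin.le_def] at hle
      omega
    · have := Fin.coe_sub_iff_lt.2 hlt
      right
      rw [Fin.lt_def] at hlt
      have ha := a.isLt
      have hb := b.isLt
      omega
  rcases h with h | h
  · rcases key _ _ h with h | h
    · exact Or.inr (Or.inl h)
    · exact Or.inr (Or.inr (Or.inl h))
  · rcases key _ _ h with h | h
    · exact Or.inl h
    · exact Or.inr (Or.inr (Or.inr h))

theorem path {V : Type} (G : SimpleGraph V) (k : ℕ) (h : EPath G k) :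
    ¬ (blowup (pathGraph (k + 1))).Free G := by
  obtain ⟨u, v, S, c, a, ⟨hadj, hc, ha, hca⟩, -, -, -, -⟩ := h
  have hadj' : ∀ i j : Fin (k + 1), (pathGraph (k + 1)).Adj i j →
      i.val + 1 = j.val ∨ j.val + 1 = i.val := fun i j h => pathGraph_adj.1 h
  refine copyB _ G (fun i => c i.val)
    (Sym2.lift ⟨fun i j => a (min i.val j.val), fun i j => by beta_reduce; rw [min_comm]⟩) ?_ ?_ ?_ ?_ ?_
  · intro i j hij
    exact Fin.ext (hc _ (by omega) _ (by omega) hij)
  · intro i j hij
    rcases hadj' i j hij with h | h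
    · have := (hadj i.val (by omega)).1
      rwa [h] at this
    · have := (hadj j.val (by omega)).1
      rw [h] at this
      exact this.symm
  · intro i j hij
    rw [Sym2.lift_mk]
    rcases hadj' i j hij with h | h
    · have e : min i.val j.val = i.val := by omega
      show G.Adj (c i.val) (a (min i.val j.val))
      rw [e]
      exact (hadj i.val (by omega)).2.1
    · have e : min i.val j.val = j.val := by omega
      show G.Adj (c i.val) (a (min i.val j.val))
      rw [e]
      have := (hadj j.val (by omega)).2.2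
      rwa [h] at this
  · intro i j i' j' hij hij' h
    rw [Sym2.lift_mk, Sym2.lift_mk] at h
    replace h : a (min i.val j.val) = a (min i'.val j'.val) := h
    have h1 := hadj' i j hij
    have h2 := hadj' i' j' hij'
    have h3 := ha _ (by omega) _ (by omega) h
    rw [Sym2.eq_iff, Fin.ext_iff, Fin.ext_iff, Fin.ext_iff, Fin.ext_iff]
    omega
  · intro x i j hij
    rw [Sym2.lift_mk]
    show c x.val ≠ a (min i.val j.val)
    have h1 := hadj' i j hij
    exact hca _ (by omega) _ (by omega)

theorem cyc {V : Type} (G : SimpleGraph V) (k : ℕ) (hk : 3 ≤ k) (h : ECyc G k) :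
    ¬ (blowup (cycleGraph k)).Free G := by
  obtain ⟨u, v, w, S, ⟨c, a, ⟨hadj, hc, ha, hca⟩, hu, hv, hcS, haS⟩, huv, huw, hvw, hwS⟩ := h
  have hcw : ∀ i ≤ k - 1, c i ≠ w := fun i hi h => hwS (h ▸ hcS i hi)
  have haw : ∀ i < k - 1, a i ≠ w := fun i hi h => hwS (h ▸ haS i hi)
  refine copyB _ G (fun i => c i.val)
    (Sym2.lift ⟨fun i j => if i.val + 1 = j.val ∨ j.val + 1 = i.val then a (min i.val j.val)
      else w, fun i j => by
        beta_reduce
        rw [min_comm]
        by_cases h : i.val + 1 = j.val ∨ j.val + 1 = i.val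
        · rw [if_pos h, if_pos h.symm]
        · rw [if_neg h, if_neg fun h' => h h'.symm]⟩) ?_ ?_ ?_ ?_ ?_
  · intro i j hij
    exact Fin.ext (hc _ (by omega) _ (by omega) hij)
  · intro i j hij
    rcases cyc_adj hij with h | h | h | h
    · have := (hadj i.val (by omega)).1
      rwa [h] at this
    · have := (hadj j.val (by omega)).1
      rw [h] at this
      exact this.symm
    · have e : j.val = k - 1 := by omega
      show G.Adj (c i.val) (c j.val)
      rw [h.1, e, hu, hv]
      exact huv
    · have e : i.val = k - 1 := by omega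
      show G.Adj (c i.val) (c j.val)
      rw [h.1, e, hu, hv]
      exact huv.symm
  · intro i j hij
    rw [Sym2.lift_mk]
    show G.Adj (c i.val) (if i.val + 1 = j.val ∨ j.val + 1 = i.val then a (min i.val j.val)
      else w)
    rcases cyc_adj hij with h | h | h | h
    · rw [if_pos (Or.inl h)]
      have e : min i.val j.val = i.val := by omega
      rw [e]
      exact (hadj i.val (by omega)).2.1
    · rw [if_pos (Or.inr h)]
      have e : min i.val j.val = j.val := by omega
      rw [e]
      have := (hadj j.val (by omega)).2.2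
      rwa [h] at this
    · rw [if_neg (by omega), h.1, hu]
      exact huw
    · rw [if_neg (by omega), show i.val = k - 1 by omega, hv]
      exact hvw
  · intro i j i' j' hij hij' h
    rw [Sym2.lift_mk, Sym2.lift_mk] at h
    replace h : (if i.val + 1 = j.val ∨ j.val + 1 = i.val then a (min i.val j.val) else w) =
      (if i'.val + 1 = j'.val ∨ j'.val + 1 = i'.val then a (min i'.val j'.val) else w) := h
    have h1 := cyc_adj hij
    have h2 := cyc_adj hij'
    rw [Sym2.eq_iff, Fin.ext_iff, Fin.ext_iff, Fin.ext_iff, Fin.ext_iff]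
    by_cases p : i.val + 1 = j.val ∨ j.val + 1 = i.val
    · by_cases q : i'.val + 1 = j'.val ∨ j'.val + 1 = i'.val
      · rw [if_pos p, if_pos q] at h
        have h3 := ha _ (by omega) _ (by omega) h
        omega
      · rw [if_pos p, if_neg q] at h
        exact absurd h (haw _ (by omega))
    · by_cases q : i'.val + 1 = j'.val ∨ j'.val + 1 = i'.val
      · rw [if_neg p, if_pos q] at h
        exact absurd h.symm (haw _ (by omega))
      · omega
  · intro x i j hij
    rw [Sym2.lift_mk]
    show c x.val ≠ (if i.val + 1 = j.val ∨ j.val + 1 = i.val then a (min i.val j.val) else w)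
    have h1 := cyc_adj hij
    split_ifs with p
    · exact hca _ (by omega) _ (by omega)
    · exact hcw _ (by omega)

theorem bridge : Bridge := fun _ G k hk => ⟨cyc G k hk, path G k⟩

end Pool.Agent.Helper11.Tri
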